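import Pool.Agent.Y554.SN.Stm
import Pool.Agent.H973R2.Exp3

/-! SN-HO: one-arm probability of the left half of an annulus, lower bound. -/

set_option autoImplicit false

namespace Pool.Agent.Y469.SN.HOx

open H974 H12S H985T Finset Pool.Agent.Y554.DP Pool.Agent.Y554.SN H973

theorem tgt_fst (e : Edg) : (src e).1 ≤ (tgt e).1 ∧ (tgt e).1 ≤ (src e).1 + 1 := by
  obtain ⟨x, y, _ | _⟩ := e
  · simp only [src_mk, tgt_false]; omega
  · simp only [src_mk, tgt_true]; omega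

/-- an open crossing of the left half -/
def LC (a N : ℕ) (F : Set Edg) : Prop :=
  ∃ u v : Vtx, onB a u ∧ onB N v ∧ u.1 < 0 ∧ Reach (F ∩ ↑(An a N \ HA a N)) u v

theorem LC_mono {a N : ℕ} {F G : Set Edg} (h : F ⊆ G) (hF : LC a N F) : LC a N G := by
  obtain ⟨u, v, h1, h2, h3, h4⟩ := hF
  exact ⟨u, v, h1, h2, h3, h4.mono (Set.inter_subset_inter_left _ h)⟩

/-- edges with an end outside of the box are not edges of the box -/
theorem not_boxE {a : ℕ} {e : Edg} {v : Vtx} (hv : ¬ inR (-(a:ℤ)) a (-(a:ℤ)) a v)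
    (he : src e = v ∨ tgt e = v) : e ∉ boxE a := by
  intro h
  have := mem_RE_ends h
  rcases he with he | he
  · rw [he] at this; exact hv this.1
  · rw [he] at this; exact hv this.2

/-- first entry into a box -/
theorem first_entry {G : Set Edg} {a : ℕ} {w u : Vtx}
    (hw : inR (-(a:ℤ)) a (-(a:ℤ)) a w → onB a w) (hu : inR (-(a:ℤ)) a (-(a:ℤ)) a u)
    (h : Reach G w u) : ∃ z, onB a z ∧ Reach (G \ ↑(boxE a)) w z := by
  have key : (∃ z, onB a z ∧ Reach (G \ ↑(boxE a)) w z) ∨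
      (¬ inR (-(a:ℤ)) a (-(a:ℤ)) a u ∧ Reach (G \ ↑(boxE a)) w u) := by
    clear hu
    induction h with
    | refl =>
      by_cases h : inR (-(a:ℤ)) a (-(a:ℤ)) a w
      · exact Or.inl ⟨w, hw h, Reach.refl _ _⟩
      · exact Or.inr ⟨h, Reach.refl _ _⟩
    | @tail b c _ hs ih =>
      rcases ih with ih | ⟨h1, h2⟩
      · exact Or.inl ih
      · obtain ⟨e, he, hc⟩ := hs
        have he' : e ∉ boxE a := by
          apply not_boxE h1
          rcases hc with ⟨h3, _⟩ | ⟨_, h3⟩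
          · exact Or.inl h3
          · exact Or.inr h3
        have h4 : Reach (G \ ↑(boxE a)) w c :=
          Relation.ReflTransGen.tail h2 ⟨e, ⟨he, fun h => he' (Finset.mem_coe.mp h)⟩, hc⟩
        by_cases h5 : inR (-(a:ℤ)) a (-(a:ℤ)) a c
        · refine Or.inl ⟨c, ⟨h5, ?_⟩, h4⟩
          have h6 : (b.1 = c.1 ∧ (b.2 = c.2 + 1 ∨ b.2 = c.2 - 1)) ∨
              (b.2 = c.2 ∧ (b.1 = c.1 + 1 ∨ b.1 = c.1 - 1)) := by
            obtain ⟨x, y, _ | _⟩ := e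
            · simp only [src_mk, tgt_false] at hc
              rcases hc with ⟨h7, h8⟩ | ⟨h7, h8⟩ <;>
              · have p1 := congrArg Prod.fst h7
                have p2 := congrArg Prod.snd h7
                have q1 := congrArg Prod.fst h8
                have q2 := congrArg Prod.snd h8
                simp only at p1 p2 q1 q2
                omega
            · simp only [src_mk, tgt_true] at hc
              rcases hc with ⟨h7, h8⟩ | ⟨h7, h8⟩ <;>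
              · have p1 := congrArg Prod.fst h7
                have p2 := congrArg Prod.snd h7
                have q1 := congrArg Prod.fst h8
                have q2 := congrArg Prod.snd h8
                simp only at p1 p2 q1 q2
                omega
          unfold inR at h1 h5
          omega
        · exact Or.inr ⟨h5, h4⟩
  rcases key with h | h
  · exact h
  · exact absurd hu h.1

/-- the left half plane in a box of radius `m` around `(-1, 0)` -/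
noncomputable def TT (m : ℤ) : Finset Vtx := shift (-1, 0) (HB 1 0 m)

theorem mem_TT {m : ℤ} {y : Vtx} : y ∈ TT m ↔
    (-m ≤ y.1 + 1 ∧ y.1 + 1 ≤ m) ∧ (-m ≤ y.2 ∧ y.2 ≤ m) ∧ y.1 + 1 ≤ 0 := by
  unfold TT
  rw [mem_shift, mem_HB]
  simp only [sub_neg_eq_add, sub_zero, one_mul, zero_mul, add_zero]
  constructor
  · rintro ⟨⟨h1, h2⟩, h3⟩
    exact ⟨h1, h2, by exact_mod_cast h3⟩
  · rintro ⟨h1, h2, h3⟩
    exact ⟨⟨h1, h2⟩, by exact_mod_cast h3⟩

theorem pr_TT (m : ℤ) :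
    Pr (fun _ => (1/2 : ℝ)) (ES (TT m)) (armC (TT m) (-1, 0) m) = armP (HB 1 0 m) m := by
  unfold TT
  exact arm_shift (-1, 0) (HB 1 0 m) m

theorem TT_inter {m n : ℤ} (h : n ≤ m) : TT m ∩ BX (-1, 0) n = TT n := by
  ext y
  rw [Finset.mem_inter, mem_TT, mem_BX, mem_TT]
  simp only
  omega

/-- the arm crosses the left half of the annulus -/
theorem cross {a N : ℕ} (ha : 1 ≤ a) (haN : a ≤ N) {F : Finset Edg}
    (hF : F ⊆ ES (TT ((N:ℤ) + 1))) (h : armC (TT ((N:ℤ) + 1)) (-1, 0) ((N:ℤ) + 1) F) :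
    LC a N (↑(F ∩ (An a N \ HA a N)) : Set Edg) := by
  obtain ⟨y, hy, hb, hr⟩ := h
  have hm1 : ((-1, 0) : Vtx) ∈ TT ((N:ℤ) + 1) := by
    rw [mem_TT]; simp only; omega
  have hin : inR (-(N:ℤ)) N (-(N:ℤ)) N ((-1, 0) : Vtx) := by
    unfold inR; simp only; omega
  have hy' := mem_TT.mp hy
  have hout : y.1 ≤ -(N:ℤ) ∨ (N:ℤ) ≤ y.1 ∨ y.2 ≤ -(N:ℤ) ∨ (N:ℤ) ≤ y.2 := by
    unfold onBX at hb
    simp only at hb
    omega
  obtain ⟨w, h1, h2, h3⟩ := first_exit hin hr hout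
  have hin' : inR (-(a:ℤ)) a (-(a:ℤ)) a ((-1, 0) : Vtx) := by
    unfold inR; simp only; omega
  have hw : inR (-(a:ℤ)) a (-(a:ℤ)) a w → onB a w := by
    intro h4
    refine ⟨h4, ?_⟩
    unfold inR at h4
    omega
  obtain ⟨z, hz, hz'⟩ := first_entry hw hin' h3.symm
  have hFe : ∀ e ∈ (F : Set Edg), e ∈ ES (TT ((N:ℤ) + 1)) := fun e he => hF (Finset.mem_coe.mp he)
  have hwT : w ∈ TT ((N:ℤ) + 1) := reach_mem hFe hm1 (h3.mono Set.inter_subset_left)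
  have hzT : z ∈ TT ((N:ℤ) + 1) := reach_mem hFe hwT
    (hz'.mono (Set.sdiff_subset.trans Set.inter_subset_left))
  refine ⟨z, w, hz, ⟨h1, h2⟩, ?_, ?_⟩
  · have := mem_TT.mp hzT
    omega
  · apply hz'.symm.mono
    rintro e ⟨⟨he1, he2⟩, he3⟩
    have h5 : e ∈ An a N := by
      unfold An
      rw [Finset.mem_sdiff]
      exact ⟨Finset.mem_coe.mp he2, fun h => he3 (Finset.mem_coe.mpr h)⟩
    have h6 : e ∉ HA a N := by
      unfold HA
      rw [Finset.mem_filter]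
      rintro ⟨_, h7, _⟩
      have h8 := mem_TT.mp (mem_ES.mp (hFe e he1)).1
      omega
    have h9 : e ∈ An a N \ HA a N := Finset.mem_sdiff.mpr ⟨h5, h6⟩
    refine ⟨?_, Finset.mem_coe.mpr h9⟩
    exact Finset.mem_coe.mpr (Finset.mem_inter.mpr ⟨Finset.mem_coe.mp he1, h9⟩)

theorem LC_pr_le {a N : ℕ} {S : Finset Edg} (hS : S ⊆ An a N \ HA a N) :
    Pr (fun _ => (1/2 : ℝ)) S (fun F => LC a N ↑F) ≤
      Pr (fun _ => (1/2 : ℝ)) (An a N \ HA a N) (fun F => LC a N ↑F) := by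
  rw [← Pr_restrict hS (fun F => LC a N (↑F : Set Edg))]
  apply Pr_mono okhalf
  intro F _ h
  exact LC_mono (by exact_mod_cast Finset.inter_subset_left) h

/-- direct bound -/
theorem low1 {a N : ℕ} (ha : 1 ≤ a) (haN : a ≤ N) :
    armP (HB 1 0 ((N:ℤ) + 1)) ((N:ℤ) + 1) ≤
      Pr (fun _ => (1/2 : ℝ)) (An a N \ HA a N) (fun F => LC a N ↑F) := by
  rw [← pr_TT]
  have h1 : Pr (fun _ => (1/2 : ℝ)) (ES (TT ((N:ℤ) + 1)))
      (armC (TT ((N:ℤ) + 1)) (-1, 0) ((N:ℤ) + 1)) ≤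
      Pr (fun _ => (1/2 : ℝ)) (ES (TT ((N:ℤ) + 1)))
        (fun F => LC a N (↑(F ∩ (ES (TT ((N:ℤ) + 1)) ∩ (An a N \ HA a N))) : Set Edg)) := by
    apply Pr_mono okhalf
    intro F hF h
    have h2 := cross ha haN hF h
    rwa [← Finset.inter_assoc, Finset.inter_eq_left.mpr hF]
  refine h1.trans ?_
  rw [Pr_restrict Finset.inter_subset_left (fun F => LC a N (↑F : Set Edg))]
  exact LC_pr_le Finset.inter_subset_right

/-- bound by independence -/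
theorem low2 {a N : ℕ} (ha : 3 ≤ a) (haN : a ≤ N) :
    armP (HB 1 0 ((N:ℤ) + 1)) ((N:ℤ) + 1) ≤ armP (HB 1 0 ((a:ℤ) - 2)) ((a:ℤ) - 2) *
      Pr (fun _ => (1/2 : ℝ)) (An a N \ HA a N) (fun F => LC a N ↑F) := by
  rw [← pr_TT, ← pr_TT]
  set U := ES (TT ((N:ℤ) + 1)) with hU
  set S := ES (TT ((a:ℤ) - 2)) with hS
  have hSU : S ⊆ U := by
    intro e he
    rw [hS, mem_ES, mem_TT, mem_TT] at he
    rw [hU, mem_ES, mem_TT, mem_TT]
    omega
  have hSb : S ⊆ boxE a := by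
    intro e he
    rw [hS, mem_ES, mem_TT, mem_TT] at he
    unfold boxE
    apply mem_RE_of_ends
    · unfold inR; omega
    · unfold inR; omega
  have hdis : Disjoint S (U ∩ (An a N \ HA a N)) := by
    rw [Finset.disjoint_left]
    intro e he he'
    have h1 := (Finset.mem_sdiff.mp (Finset.mem_inter.mp he').2).1
    unfold An at h1
    exact (Finset.mem_sdiff.mp h1).2 (hSb he)
  have h1 : Pr (fun _ => (1/2 : ℝ)) U (armC (TT ((N:ℤ) + 1)) (-1, 0) ((N:ℤ) + 1)) ≤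
      Pr (fun _ => (1/2 : ℝ)) U (fun F => armC (TT ((a:ℤ) - 2)) (-1, 0) ((a:ℤ) - 2) (F ∩ S) ∧
        LC a N (↑(F ∩ (U ∩ (An a N \ HA a N))) : Set Edg)) := by
    apply Pr_mono okhalf
    intro F hF h
    constructor
    · obtain ⟨y, hy, hb, hr⟩ := h
      have hm1 : ((-1, 0) : Vtx) ∈ TT ((N:ℤ) + 1) := by
        rw [mem_TT]; simp only; omega
      have hmB : ((-1, 0) : Vtx) ∈ BX (-1, 0) ((a:ℤ) - 2) := by
        rw [mem_BX]; simp only; omega
      have hy' := mem_TT.mp hy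
      obtain ⟨z, hz1, hz2, hz3⟩ := arm_exit (n := (a:ℤ) - 2) hF hm1 hmB hr (by
        unfold onBX at hb
        simp only at hb ⊢
        omega)
      rw [TT_inter (by omega)] at hz1 hz3
      exact ⟨z, hz1, hz2, hz3⟩
    · have h2 := cross (by omega) haN hF h
      rwa [← Finset.inter_assoc, Finset.inter_eq_left.mpr hF]
  refine h1.trans ?_
  rw [Pr_indep' hSU Finset.inter_subset_left hdis
    (armC (TT ((a:ℤ) - 2)) (-1, 0) ((a:ℤ) - 2)) (fun F => LC a N (↑F : Set Edg))]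
  apply mul_le_mul_of_nonneg_left _ (Pr_nonneg okhalf _ _)
  exact LC_pr_le Finset.inter_subset_right

theorem ho : S_HO := by
  obtain ⟨c, C, hc, hC, hex⟩ := exponents
  have key : ∀ n : ℕ, 1 ≤ n → c ≤ (n:ℝ) ^ ((1:ℝ) / 3) * armP (HB 1 0 n) n ∧
      (n:ℝ) ^ ((1:ℝ) / 3) * armP (HB 1 0 n) n ≤ C := by
    intro n hn
    exact (hex n hn).2 1 0 (Or.inl one_ne_zero)
  refine ⟨min (c / 2) (c / (2 * C)), lt_min (by positivity) (by positivity), ?_⟩
  intro a N ha haN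
  have ha0 : (1:ℝ) ≤ a := by exact_mod_cast ha
  have haN' : (a:ℝ) ≤ N := by exact_mod_cast haN
  have hN0 : (1:ℝ) ≤ N := ha0.trans haN'
  set P := PQ (1 / 2) (An a N \ HA a N) (fun F => ∃ u v : Vtx, onB a u ∧ onB N v ∧ u.1 < 0 ∧
        Reach ((↑F : Set Edg) ∩ ↑(An a N \ HA a N)) u v) with hP
  have hPe : P = Pr (fun _ => (1/2 : ℝ)) (An a N \ HA a N) (fun F => LC a N ↑F) := rfl
  have hP0 : 0 ≤ P := Pr_nonneg okhalf _ _
  have hr0 : 0 < (a:ℝ) / N := by positivity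
  have hr3 : 0 < ((a:ℝ) / N) ^ (1 / 3 : ℝ) := Real.rpow_pos_of_pos hr0 _
  have hNN := key (N + 1) (by omega)
  push_cast at hNN
  have h8 : (8:ℝ) ^ ((1:ℝ) / 3) = 2 := by
    rw [show (8 : ℝ) = 2 ^ (3 : ℝ) by norm_num, ← Real.rpow_mul (by norm_num)]
    norm_num
  rcases Nat.lt_or_ge a 3 with h | h
  · -- small inner radius
    have h1 := low1 ha haN
    rw [← hPe] at h1
    have ha2 : (a:ℝ) ≤ 2 := by exact_mod_cast (by omega : a ≤ 2)
    have h2 : c ≤ ((N:ℝ) + 1) ^ ((1:ℝ) / 3) * P :=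
      hNN.1.trans (mul_le_mul_of_nonneg_left h1 (by positivity))
    have h3 : ((N:ℝ) + 1) ^ ((1:ℝ) / 3) * ((a:ℝ) / N) ^ (1 / 3 : ℝ) ≤ 2 := by
      rw [← Real.mul_rpow (by positivity) hr0.le, ← h8]
      apply Real.rpow_le_rpow (by positivity) _ (by norm_num)
      rw [mul_div_assoc', div_le_iff₀ (by positivity)]
      nlinarith
    have h4 : c * ((a:ℝ) / N) ^ (1 / 3 : ℝ) ≤ 2 * P := by
      calc c * ((a:ℝ) / N) ^ (1 / 3 : ℝ) ≤
          (((N:ℝ) + 1) ^ ((1:ℝ) / 3) * P) * ((a:ℝ) / N) ^ (1 / 3 : ℝ) :=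
            mul_le_mul_of_nonneg_right h2 hr3.le
        _ = (((N:ℝ) + 1) ^ ((1:ℝ) / 3) * ((a:ℝ) / N) ^ (1 / 3 : ℝ)) * P := by ring
        _ ≤ 2 * P := mul_le_mul_of_nonneg_right h3 hP0
    calc min (c / 2) (c / (2 * C)) * ((a:ℝ) / N) ^ (1 / 3 : ℝ) ≤
        c / 2 * ((a:ℝ) / N) ^ (1 / 3 : ℝ) :=
          mul_le_mul_of_nonneg_right (min_le_left _ _) hr3.le
      _ ≤ P := by linarith
  · -- large inner radius
    have h1 := low2 h haN
    rw [← hPe] at h1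
    have h2 : c ≤ ((N:ℝ) + 1) ^ ((1:ℝ) / 3) * (armP (HB 1 0 ((a:ℤ) - 2)) ((a:ℤ) - 2) * P) :=
      hNN.1.trans (mul_le_mul_of_nonneg_left h1 (by positivity))
    obtain ⟨b, hb⟩ : ∃ b : ℕ, a = b + 2 := ⟨a - 2, by omega⟩
    have hb1 : 1 ≤ b := by omega
    have hbz : (a:ℤ) - 2 = (b:ℤ) := by rw [hb]; push_cast; ring
    rw [hbz] at h2
    have h3 := (key b hb1).2
    have hb0 : (1:ℝ) ≤ b := by exact_mod_cast hb1
    have hab : (a:ℝ) = b + 2 := by rw [hb]; push_cast; ring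
    have hbp : 0 < (b:ℝ) ^ ((1:ℝ) / 3) := by positivity
    -- c b^(1/3) ≤ C (N+1)^(1/3) P
    have h4 : c * (b:ℝ) ^ ((1:ℝ) / 3) ≤ C * (((N:ℝ) + 1) ^ ((1:ℝ) / 3) * P) := by
      calc c * (b:ℝ) ^ ((1:ℝ) / 3) ≤
          (((N:ℝ) + 1) ^ ((1:ℝ) / 3) * (armP (HB 1 0 b) b * P)) * (b:ℝ) ^ ((1:ℝ) / 3) :=
            mul_le_mul_of_nonneg_right h2 hbp.le
        _ = ((b:ℝ) ^ ((1:ℝ) / 3) * armP (HB 1 0 b) b) * (((N:ℝ) + 1) ^ ((1:ℝ) / 3) * P) := by
            ring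
        _ ≤ C * (((N:ℝ) + 1) ^ ((1:ℝ) / 3) * P) :=
            mul_le_mul_of_nonneg_right h3 (by positivity)
    -- (N+1)^(1/3) (a/N)^(1/3) ≤ 2 b^(1/3)
    have h5 : ((N:ℝ) + 1) ^ ((1:ℝ) / 3) * ((a:ℝ) / N) ^ (1 / 3 : ℝ) ≤
        2 * (b:ℝ) ^ ((1:ℝ) / 3) := by
      rw [← Real.mul_rpow (by positivity) hr0.le, ← h8, ← Real.mul_rpow (by norm_num) (by positivity)]
      apply Real.rpow_le_rpow (by positivity) _ (by norm_num)
      rw [mul_div_assoc', div_le_iff₀ (by positivity)]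
      nlinarith
    have hN3 : 0 < ((N:ℝ) + 1) ^ ((1:ℝ) / 3) := by positivity
    have h6 : c * ((a:ℝ) / N) ^ (1 / 3 : ℝ) ≤ 2 * C * P := by
      have h7 : (c * ((a:ℝ) / N) ^ (1 / 3 : ℝ)) * ((N:ℝ) + 1) ^ ((1:ℝ) / 3) ≤
          (2 * C * P) * ((N:ℝ) + 1) ^ ((1:ℝ) / 3) := by
        calc (c * ((a:ℝ) / N) ^ (1 / 3 : ℝ)) * ((N:ℝ) + 1) ^ ((1:ℝ) / 3) =
            c * (((N:ℝ) + 1) ^ ((1:ℝ) / 3) * ((a:ℝ) / N) ^ (1 / 3 : ℝ)) := by ring
          _ ≤ c * (2 * (b:ℝ) ^ ((1:ℝ) / 3)) := mul_le_mul_of_nonneg_left h5 hc.le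
          _ = 2 * (c * (b:ℝ) ^ ((1:ℝ) / 3)) := by ring
          _ ≤ 2 * (C * (((N:ℝ) + 1) ^ ((1:ℝ) / 3) * P)) := by linarith
          _ = _ := by ring
      exact le_of_mul_le_mul_right h7 hN3
    calc min (c / 2) (c / (2 * C)) * ((a:ℝ) / N) ^ (1 / 3 : ℝ) ≤
        c / (2 * C) * ((a:ℝ) / N) ^ (1 / 3 : ℝ) :=
          mul_le_mul_of_nonneg_right (min_le_right _ _) hr3.le
      _ ≤ P := by
          rw [div_mul_eq_mul_div, div_le_iff₀ (by positivity)]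
          linarith

end Pool.Agent.Y469.SN.HOx
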