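import Pool.Agent.Y554.SN.Stm
import Pool.Agent.H389R2.NS.Pair1
import Pool.Agent.H389R2.NS.Pair2
import Pool.Agent.H389R2.NS.D0

/-! SN-YB: two-layer probability of `YS`, by gluing with an open crossing of the left half. -/

set_option autoImplicit false

namespace Pool.Agent.Y469.SN

open H974 H12S H985T H389NS Finset Pool.Agent.Y554.DP Pool.Agent.Y554.SN

theorem coe_inter_self (F T : Finset Edg) :
    ((↑(F ∩ T) : Set Edg) ∩ ↑T) = (↑F : Set Edg) ∩ ↑T := by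
  rw [Finset.coe_inter, Set.inter_assoc, Set.inter_self]

theorem tgt_fst (e : Edg) : (src e).1 ≤ (tgt e).1 ∧ (tgt e).1 ≤ (src e).1 + 1 := by
  obtain ⟨x, y, _ | _⟩ := e
  · simp only [src_mk, tgt_false]; omega
  · simp only [src_mk, tgt_true]; omega

theorem HA_sub (a N : ℕ) : HA a N ⊆ An a N := Finset.filter_subset _ _

theorem mem_HA {a N : ℕ} {e : Edg} :
    e ∈ HA a N ↔ e ∈ An a N ∧ 0 ≤ (src e).1 ∧ 0 ≤ (tgt e).1 := by
  unfold HA; rw [Finset.mem_filter]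

/-- The cluster does not leave the right half. -/
theorem stay {a N : ℕ} {F : Set Edg} {u : Vtx} (hu : 0 < u.1)
    (h0 : ∀ w : Vtx, w.1 = 0 → ¬ Reach (F ∩ ↑(HA a N)) u w) {w : Vtx}
    (h : Reach (F ∩ ↑(An a N)) u w) : Reach (F ∩ ↑(HA a N)) u w ∧ 0 < w.1 := by
  induction h with
  | refl => exact ⟨Reach.refl _ _, hu⟩
  | @tail b c _ hs ih =>
    obtain ⟨h1, h2⟩ := ih
    obtain ⟨e, ⟨heF, heA⟩, hc⟩ := hs
    have h3 := tgt_fst e
    have hH : e ∈ HA a N := by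
      rw [mem_HA]
      refine ⟨Finset.mem_coe.mp heA, ?_⟩
      rcases hc with ⟨h4, h5⟩ | ⟨h4, h5⟩
      · rw [h4] at h3 ⊢; omega
      · rw [h5] at h3 ⊢; omega
    have h6 : Reach (F ∩ ↑(HA a N)) u c :=
      Relation.ReflTransGen.tail h1 ⟨e, ⟨heF, Finset.mem_coe.mpr hH⟩, hc⟩
    refine ⟨h6, ?_⟩
    have h7 : c.1 ≠ 0 := fun h => h0 c h h6
    have h8 := (mem_HA.mp hH).2
    rcases hc with ⟨h4, h5⟩ | ⟨h4, h5⟩
    · rw [h5] at h8; omega
    · rw [h4] at h8; omega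

/-- the endpoint of a nontrivial path of edges of `HA` has nonnegative first coordinate -/
theorem start_nonneg {a N : ℕ} {F : Set Edg} {u v : Vtx} (h : Reach (F ∩ ↑(HA a N)) u v)
    (hne : u ≠ v) : 0 ≤ u.1 := by
  rcases Relation.ReflTransGen.cases_head h with h | ⟨w, h, _⟩
  · exact absurd h hne
  · obtain ⟨e, ⟨_, he⟩, hc⟩ := h
    have h8 := (mem_HA.mp (Finset.mem_coe.mp he)).2
    rcases hc with ⟨h4, h5⟩ | ⟨h4, h5⟩
    · rw [h4] at h8; omega
    · rw [h5] at h8; omega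

theorem onB_ne {a N : ℕ} (h : a < N) {u v : Vtx} (hu : onB a u) (hv : onB N v) : u ≠ v := by
  rintro rfl
  have h1 := hu.1
  have h2 := hv.2
  unfold inR at h1
  omega

/-- an open crossing of the left half -/
def LC (a N : ℕ) (F : Set Edg) : Prop :=
  ∃ u v : Vtx, onB a u ∧ onB N v ∧ u.1 < 0 ∧ Reach (F ∩ ↑(An a N \ HA a N)) u v

theorem glue {a N : ℕ} (haN : a < N) {F : Set Edg} (h1 : YS a N F) (h2 : LC a N F) :
    AF4 a N F := by
  obtain ⟨u, v, hu, hv, h3, h4⟩ := h1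
  obtain ⟨u', v', hu', hv', h5, h6⟩ := h2
  have hne := onB_ne haN hu hv
  have hu0 : 0 ≤ u.1 := start_nonneg h3 hne
  have hu1 : 0 < u.1 := by
    have : u.1 ≠ 0 := fun h => h4 u h (Reach.refl _ _)
    omega
  refine ⟨u, u', v, v', hu, hu', hv, hv', ?_, ?_, ?_⟩
  · exact h3.mono (Set.inter_subset_inter_right _ (Finset.coe_subset.mpr (HA_sub a N)))
  · exact h6.mono (Set.inter_subset_inter_right _
      (Finset.coe_subset.mpr Finset.sdiff_subset))
  · intro h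
    have := (stay hu1 h4 h).2
    omega

theorem YS_loc (a N : ℕ) (F : Finset Edg) :
    YS a N (↑F : Set Edg) ↔ YS a N (↑(F ∩ HA a N) : Set Edg) := by
  unfold YS
  rw [coe_inter_self]

theorem LC_loc (a N : ℕ) (F : Finset Edg) :
    LC a N (↑F : Set Edg) ↔ LC a N (↑(F ∩ (An a N \ HA a N)) : Set Edg) := by
  unfold LC
  rw [coe_inter_self]

/-- independent layers -/
theorem P2_indep_layers (Z : Finset Edg) (A : Finset Edg → Prop) :
    P2 (fun _ => 0) Z A A = (Pr hp Z A) ^ 2 := by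
  rw [P2_zero (N := Z) (Finset.Subset.refl _) (fun _ _ => rfl) (fun e he => by
    rw [Finset.sdiff_self] at he
    exact absurd he (Finset.notMem_empty e))]
  unfold UA UU
  rw [Finset.sdiff_self, Ex_empty]
  unfold Pr
  congr 2
  funext F
  rw [Finset.empty_union]

theorem P2_le_one' {x : ℝ} (h0 : 0 ≤ x) (h1 : x ≤ 1) (Z : Finset Edg)
    (A B : Finset Edg → Prop) : P2 (fun _ => x) Z A B ≤ 1 := by
  refine (P2_le_Pr (fun _ _ => ⟨h0, h1⟩) A B).trans (Pr_le_one ?_ Z A)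
  intro e
  unfold hp
  constructor <;> norm_num

theorem yb (hq : S_QXS) (ha : S_AF4) (ho : S_HO) : S_YB := by
  obtain ⟨C, hC, hq'⟩ := hq AF4 (5 / 4) ha
  obtain ⟨c, hc, ho'⟩ := ho
  refine ⟨max 1 (C / c ^ 2), lt_max_of_lt_left one_pos, ?_⟩
  intro a N x ha1 haN hx0 hx1 hx
  have ha0 : (0:ℝ) < a := by exact_mod_cast ha1
  have hN0 : (0:ℝ) < N := by exact_mod_cast (lt_of_lt_of_le ha1 haN)
  rcases Nat.eq_or_lt_of_le haN with h | hlt
  · -- the trivial case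
    rw [← h, div_self ha0.ne', Real.one_rpow, mul_one]
    exact (P2_le_one' hx0 hx1.le _ _ _).trans (le_max_left _ _)
  have hr : 0 < (a:ℝ) / N := div_pos ha0 hN0
  have h1 := hq' a N x ha1 haN hx0 hx1 hx
  have hρ : ∀ e ∈ An a N, 0 ≤ (fun _ : Edg => x) e ∧ (fun _ : Edg => x) e ≤ 1 :=
    fun _ _ => ⟨hx0, hx1.le⟩
  have hdis : Disjoint (HA a N) (An a N \ HA a N) := Finset.disjoint_sdiff
  have h2 : P2 (fun _ => x) (An a N) (fun F => YS a N ↑F ∧ LC a N ↑F)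
      (fun F => YS a N ↑F ∧ LC a N ↑F) ≤ qX AF4 x a N := by
    unfold qX
    exact D0.P2_mono hρ (fun F _ h => glue hlt h.1 h.2) (fun F _ h => glue hlt h.1 h.2)
  rw [P2_indep (S := HA a N) (T := An a N \ HA a N) (HA_sub a N) Finset.sdiff_subset hdis
    (A := fun F => YS a N (↑F : Set Edg)) (A' := fun F => YS a N (↑F : Set Edg))
    (B := fun F => LC a N (↑F : Set Edg)) (B' := fun F => LC a N (↑F : Set Edg))
    (fun F _ => YS_loc a N F) (fun F _ => YS_loc a N F) (fun F _ => LC_loc a N F)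
    (fun F _ => LC_loc a N F),
    P2_local (S' := HA a N) (HA_sub a N) (A := fun F => YS a N (↑F : Set Edg))
      (B := fun F => YS a N (↑F : Set Edg)) (fun F _ => YS_loc a N F) (fun F _ => YS_loc a N F),
    P2_local (S' := An a N \ HA a N) Finset.sdiff_subset (A := fun F => LC a N (↑F : Set Edg))
      (B := fun F => LC a N (↑F : Set Edg)) (fun F _ => LC_loc a N F) (fun F _ => LC_loc a N F)]
    at h2
  -- lower bound for the left half
  have h3 : (c * ((a:ℝ) / N) ^ (1 / 3 : ℝ)) ^ 2 ≤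
      P2 (fun _ => x) (An a N \ HA a N) (fun F => LC a N ↑F) (fun F => LC a N ↑F) := by
    have h4 := ho' a N ha1 haN
    have h5 : (c * ((a:ℝ) / N) ^ (1 / 3 : ℝ)) ^ 2 ≤
        (Pr hp (An a N \ HA a N) (fun F => LC a N ↑F)) ^ 2 :=
      pow_le_pow_left₀ (by positivity) h4 2
    refine h5.trans ?_
    rw [← P2_indep_layers]
    exact P2_mono_param (fun _ _ => le_refl 0) (fun _ _ => hx0) _
  have hP := D0.P2_nonneg (ρ := fun _ : Edg => x) (S := HA a N) (fun _ _ => ⟨hx0, hx1.le⟩)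
    (fun F => YS a N (↑F : Set Edg)) (fun F => YS a N (↑F : Set Edg))
  set P := P2 (fun _ => x) (HA a N) (fun F => YS a N (↑F : Set Edg))
    (fun F => YS a N (↑F : Set Edg)) with hPdef
  have h6 : P * (c * ((a:ℝ) / N) ^ (1 / 3 : ℝ)) ^ 2 ≤ C * ((a:ℝ) / N) ^ (2 * (5 / 4) : ℝ) :=
    (mul_le_mul_of_nonneg_left h3 hP).trans (h2.trans h1)
  have h7 : ((a:ℝ) / N) ^ (2 * (5 / 4) : ℝ) =
      ((a:ℝ) / N) ^ (11 / 6 : ℝ) * (((a:ℝ) / N) ^ (1 / 3 : ℝ)) ^ 2 := by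
    rw [← Real.rpow_natCast, ← Real.rpow_mul hr.le, ← Real.rpow_add hr]
    norm_num
  have h8 : 0 < (((a:ℝ) / N) ^ (1 / 3 : ℝ)) ^ 2 := by positivity
  have h9 : P ≤ C / c ^ 2 * ((a:ℝ) / N) ^ (11 / 6 : ℝ) := by
    rw [div_mul_eq_mul_div, le_div_iff₀ (by positivity)]
    rw [h7, mul_pow] at h6
    have h10 : (P * c ^ 2) * (((a:ℝ) / N) ^ (1 / 3 : ℝ)) ^ 2 ≤
        (C * ((a:ℝ) / N) ^ (11 / 6 : ℝ)) * (((a:ℝ) / N) ^ (1 / 3 : ℝ)) ^ 2 := by
      calc (P * c ^ 2) * (((a:ℝ) / N) ^ (1 / 3 : ℝ)) ^ 2 =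
          P * (c ^ 2 * (((a:ℝ) / N) ^ (1 / 3 : ℝ)) ^ 2) := by ring
        _ ≤ C * (((a:ℝ) / N) ^ (11 / 6 : ℝ) * (((a:ℝ) / N) ^ (1 / 3 : ℝ)) ^ 2) := h6
        _ = _ := by ring
    exact le_of_mul_le_mul_right h10 h8
  refine h9.trans ?_
  exact mul_le_mul_of_nonneg_right (le_max_right _ _) (by positivity)

end Pool.Agent.Y469.SN
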